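import Pool.Agent.V11328.TD.Sums
import Pool.Agent.H449R2.Fl.L12

/-!
# Edges plus squares of codegrees, on a set of vertices
-/

set_option autoImplicit false

open Finset

namespace Pool.Agent.V11328.TD

open Pool.Agent.H449R2.Fl

theorem g_eq {V : Type} {e : V → V → V → ℕ} (he : Pat e) (a b c d : V) :
    L12.g (sg e a b c d) = 4947802324992 * (e a b c + e a b c * e a b d) := by
  have l0 := he.le1 a b c
  have l1 := he.le1 a b d
  have l2 := he.le1 a c d
  have l3 := he.le1 b c d
  unfold sg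
  interval_cases h0 : e a b c <;> interval_cases h1 : e a b d <;>
    interval_cases h2 : e a c d <;> interval_cases h3 : e b c d <;> rfl

theorem flag_type {V : Type} [Fintype V] {e : V → V → V → ℕ} (he : Pat e) (hK : NoQ e)
    (hV : 0 < Fintype.card V) :
    9 * ((Fintype.card V : ℝ) * S e univ univ univ + S2 e univ univ univ) ≤
      8 * (Fintype.card V : ℝ) ^ 4 := by
  have hb := L12.bound he (hasK4_false hK)
  set n := Fintype.card V with hn
  have h1 : ∑ a : V, ∑ b : V, ∑ c : V, ∑ d : V, ∑ _x : V, ∑ _y : V,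
      (L12.g (sg e a b c d) : ℤ) = 4947802324992 * ((n : ℤ) ^ 2 *
        ((n : ℤ) * (∑ a : V, ∑ b : V, ∑ c : V, (e a b c : ℤ)) +
        ∑ a : V, ∑ b : V, (∑ c : V, (e a b c : ℤ)) ^ 2)) := by
    have e3 : ∀ a b : V, (∑ c : V, (e a b c : ℤ)) ^ 2 =
        ∑ c : V, ∑ d : V, ((e a b c : ℤ) * (e a b d : ℤ)) := fun a b => by
      rw [sq, sum_mul_sum]
    simp only [e3]
    simp only [g_eq he, sum_const, card_univ, nsmul_eq_mul, ← hn]
    push_cast
    simp only [mul_add, sum_add_distrib, ← mul_sum, sum_const, card_univ, nsmul_eq_mul, ← hn]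
    ring
  rw [h1] at hb
  have h2 : 9 * (n : ℤ) ^ 2 * ((n : ℤ) * (∑ a : V, ∑ b : V, ∑ c : V, (e a b c : ℤ)) +
        ∑ a : V, ∑ b : V, (∑ c : V, (e a b c : ℤ)) ^ 2) ≤ 8 * (n : ℤ) ^ 6 := by
    nlinarith [hb]
  have h3 : 9 * (n : ℝ) ^ 2 * ((n : ℝ) * S e univ univ univ + S2 e univ univ univ) ≤
      8 * (n : ℝ) ^ 6 := by
    unfold S S2
    exact_mod_cast h2
  have hn0 : (0 : ℝ) < (n : ℝ) ^ 2 := by
    have : (0 : ℝ) < n := by exact_mod_cast hV
    positivity
  refine le_of_mul_le_mul_left ?_ hn0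
  nlinarith [h3]

theorem flag {V : Type} [DecidableEq V] {e : V → V → V → ℕ} (he : Pat e) (hK : NoQ e)
    (C : Finset V) (hC : C.Nonempty) :
    9 * ((C.card : ℝ) * S e C C C + S2 e C C C) ≤ 8 * (C.card : ℝ) ^ 4 := by
  have he' : Pat (fun a b c : {x // x ∈ C} => e a b c) :=
    ⟨fun a b c => he.le1 a b c, fun a b c => he.s12 a b c, fun a b c => he.s23 a b c,
      fun a b => he.dg a b⟩
  have hK' : NoQ (fun a b c : {x // x ∈ C} => e a b c) := fun a b c d => hK a b c d
  have hcard : Fintype.card {x // x ∈ C} = C.card := Fintype.card_coe C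
  have h := flag_type he' hK' (by rw [hcard]; exact hC.card_pos)
  rw [hcard] at h
  have h1 : S (fun a b c : {x // x ∈ C} => e a b c) univ univ univ = S e C C C := by
    unfold S
    rw [← Finset.sum_coe_sort C]
    refine sum_congr rfl fun x _ => ?_
    rw [← Finset.sum_coe_sort C]
    refine sum_congr rfl fun y _ => ?_
    rw [← Finset.sum_coe_sort C]
  have h2 : S2 (fun a b c : {x // x ∈ C} => e a b c) univ univ univ = S2 e C C C := by
    unfold S2
    rw [← Finset.sum_coe_sort C]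
    refine sum_congr rfl fun x _ => ?_
    rw [← Finset.sum_coe_sort C]
    refine sum_congr rfl fun y _ => ?_
    rw [← Finset.sum_coe_sort C]
  rwa [h1, h2] at h

end Pool.Agent.V11328.TD
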