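import Pool.Agent.V11328.TD.Main

/-!
# Comparison with Turán's construction, and group actions
-/

set_option autoImplicit false

open Finset

namespace Pool.Agent.V11328.TD

/-- The number of edges of Turán's construction on `n` vertices: `k(k-1)(2k-1)`, `k²(2k-1)`,
`k²(2k+1)` for `n = 3k`, `3k+1`, `3k+2`. -/
def turan (n : ℕ) : ℕ :=
  if n % 3 = 0 then (n / 3) * (n / 3 - 1) * (2 * (n / 3) - 1)
  else if n % 3 = 1 then (n / 3) ^ 2 * (2 * (n / 3) - 1)
  else (n / 3) ^ 2 * (2 * (n / 3) + 1)

theorem turan_le (n : ℕ) : (turan n : ℝ) ≤ (2 * (n : ℝ) ^ 3 - 9 * (n : ℝ) ^ 2 + 12 * n) / 27 := by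
  obtain ⟨k, h | h | h⟩ : ∃ k, n = 3 * k ∨ n = 3 * k + 1 ∨ n = 3 * k + 2 := ⟨n / 3, by omega⟩
  · subst h
    have h1 : turan (3 * k) = k * (k - 1) * (2 * k - 1) := by
      unfold turan
      rw [if_pos (by omega)]
      congr <;> omega
    rw [h1]
    rcases k with _ | k
    · simp
    · have h2 : (k + 1) * (k + 1 - 1) * (2 * (k + 1) - 1) = (k + 1) * k * (2 * k + 1) := by
        congr 1
      rw [h2]
      push_cast
      have : (0 : ℝ) ≤ k := by positivity
      nlinarith
  · subst h
    have h1 : turan (3 * k + 1) = k ^ 2 * (2 * k - 1) := by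
      unfold turan
      rw [if_neg (by omega), if_pos (by omega)]
      have : (3 * k + 1) / 3 = k := by omega
      rw [this]
    rw [h1]
    rcases k with _ | k
    · norm_num
    · have h2 : (k + 1) ^ 2 * (2 * (k + 1) - 1) = (k + 1) ^ 2 * (2 * k + 1) := by
        congr 1
      rw [h2]
      push_cast
      have : (0 : ℝ) ≤ k := by positivity
      nlinarith
  · subst h
    have h1 : turan (3 * k + 2) = k ^ 2 * (2 * k + 1) := by
      unfold turan
      rw [if_neg (by omega), if_neg (by omega)]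
      have : (3 * k + 2) / 3 = k := by omega
      rw [this]
    rw [h1]
    push_cast
    have : (0 : ℝ) ≤ k := by positivity
    nlinarith

theorem turan_one {m c : ℕ} (hm : 1 ≤ m) (h : (m : ℝ) * (m - 1) * (11 * m - 6) / 18 ≤ c) :
    turan (2 * m) ≤ c := by
  rcases Nat.lt_or_ge m 2 with h1 | h1
  · have : m = 1 := by omega
    subst this
    have : turan (2 * 1) = 0 := by decide
    omega
  · have h2 := turan_le (2 * m)
    push_cast at h2
    have hm' : (2 : ℝ) ≤ m := by exact_mod_cast h1
    have h3 : (turan (2 * m) : ℝ) ≤ c := by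
      refine h2.trans (le_trans ?_ h)
      have h4 : (0 : ℝ) ≤ (m : ℝ) * ((m : ℝ) ^ 2 + 21 * m - 30) :=
        mul_nonneg (by linarith) (by nlinarith)
      nlinarith [h4]
    exact_mod_cast h3

theorem turan_two {m c : ℕ} (hm : 65 ≤ m)
    (h : (143 * (m : ℝ) ^ 3 - 210 * (m : ℝ) ^ 2 + 40 * m) / 30 ≤ c) :
    turan (4 * m) ≤ c := by
  have h2 := turan_le (4 * m)
  push_cast at h2
  have hm' : (65 : ℝ) ≤ m := by exact_mod_cast hm
  have h3 : (turan (4 * m) : ℝ) ≤ c := by
    refine h2.trans (le_trans ?_ h)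
    have h4 : (0 : ℝ) ≤ (m : ℝ) * (7 * (m : ℝ) ^ 2 - 450 * m - 120) :=
      mul_nonneg (by linarith) (by nlinarith)
    nlinarith [h4]
  exact_mod_cast h3

/-- `Γ` has a subgroup of index `2` outside which all elements have order `2` (so `Γ` is a generalized
dihedral group); it acts freely on the vertices, with exactly `k` orbits, and `G` is invariant. -/
def DihedralSymmetric (Γ V : Type) [Group Γ] [MulAction Γ V] [DecidableEq V] (k : ℕ)
    (G : Finset (Finset V)) : Prop :=
  (∃ A : Subgroup Γ, A.index = 2 ∧ ∀ g : Γ, g ∉ A → g * g = 1) ∧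
    (∀ (g : Γ) (x : V), g • x = x → g = 1) ∧
    Nat.card (MulAction.orbitRel.Quotient Γ V) = k ∧
    ∀ (g : Γ) (e : Finset V), e ∈ G → e.image (fun x => g • x) ∈ G

open Classical in
theorem swap_of_group {Γ V : Type} [Group Γ] [MulAction Γ V] [Fintype V] [DecidableEq V] {k : ℕ}
    {G : Finset (Finset V)} (h : DihedralSymmetric Γ V k G) (hk : 0 < k) :
    ∃ (T : Finset (Equiv.Perm V)) (side : V → Bool) (blk : V → Fin k),
      SwapFamily k G T side blk ∧ T.Nonempty ∧ Function.Surjective blk := by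
  obtain ⟨⟨A, hA, hinv⟩, hfree, hcard, hG⟩ := h
  have hfin : Finite (MulAction.orbitRel.Quotient Γ V) := Quotient.finite _
  obtain ⟨φ⟩ : Nonempty (MulAction.orbitRel.Quotient Γ V ≃ Fin k) := by
    rw [← hcard]
    exact ⟨Finite.equivFin _⟩
  let π : V → MulAction.orbitRel.Quotient Γ V := fun x => Quotient.mk'' x
  let rep : V → V := fun x => (π x).out
  have hπ : ∀ x y : V, π x = π y ↔ ∃ g : Γ, g • y = x := by
    intro x y
    rw [← MulAction.mem_orbit_iff, ← MulAction.orbitRel_apply]
    exact Quotient.eq''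
  have hrep : ∀ x, ∃ g : Γ, g • rep x = x := by
    intro x
    have h1 : π x = π (rep x) := (Quotient.out_eq' (π x)).symm
    exact (hπ x (rep x)).1 h1
  choose γ hγ using hrep
  have hγu : ∀ x (g : Γ), g • rep x = x → g = γ x := by
    intro x g hg
    have h1 : (g⁻¹ * γ x) • rep x = rep x := by
      rw [mul_smul, hγ x, inv_smul_eq_iff, hg]
    have := hfree _ _ h1
    rw [inv_mul_eq_one] at this
    exact this
  have hrep_smul : ∀ (g : Γ) (x : V), rep (g • x) = rep x := by
    intro g x
    have : π (g • x) = π x := (hπ _ _).2 ⟨g, rfl⟩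
    show (π (g • x)).out = (π x).out
    rw [this]
  have hγ_smul : ∀ (g : Γ) (x : V), γ (g • x) = g * γ x := by
    intro g x
    symm
    apply hγu
    rw [hrep_smul, mul_smul, hγ]
  have hmul : ∀ a b : Γ, a * b ∈ A ↔ (a ∈ A ↔ b ∈ A) := fun a b =>
    Subgroup.mul_mem_iff_of_index_two hA
  let side : V → Bool := fun x => decide (γ x ∉ A)
  let blk : V → Fin k := fun x => φ (π x)
  refine ⟨univ.filter fun τ : Equiv.Perm V => ∃ g : Γ, g ∉ A ∧ ∀ x, τ x = g • x, side, blk,
    ?_, ?_, ?_⟩
  · constructor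
    · intro τ hτ x
      rw [mem_filter] at hτ
      obtain ⟨g, hg, hτ⟩ := hτ.2
      rw [hτ, hτ, ← mul_smul, hinv g hg, one_smul]
    · intro τ hτ x
      rw [mem_filter] at hτ
      obtain ⟨g, hg, hτ⟩ := hτ.2
      show decide (γ (τ x) ∉ A) = !decide (γ x ∉ A)
      rw [hτ, hγ_smul]
      by_cases h1 : γ x ∈ A
      · have : g * γ x ∉ A := by rw [hmul]; tauto
        simp [h1, this]
      · have : g * γ x ∈ A := by rw [hmul]; tauto
        simp [h1, this]
    · intro τ hτ x
      rw [mem_filter] at hτ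
      obtain ⟨g, hg, hτ⟩ := hτ.2
      show φ (π (τ x)) = φ (π x)
      rw [hτ]
      congr 1
      exact (hπ _ _).2 ⟨g, rfl⟩
    · intro x y hxy hb
      have hb' : π x = π y := φ.injective hb
      have hr : rep x = rep y := by show (π x).out = (π y).out; rw [hb']
      have hxy' : ¬ (γ x ∉ A ↔ γ y ∉ A) := by
        intro h
        apply hxy
        show decide (γ x ∉ A) = decide (γ y ∉ A)
        simp only [h]
      have hg : γ y * (γ x)⁻¹ ∉ A := by
        rw [hmul, inv_mem_iff]
        tauto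
      have hgx : (γ y * (γ x)⁻¹) • x = y := by
        have h1 : (γ x)⁻¹ • x = rep x := by rw [inv_smul_eq_iff, hγ]
        rw [mul_smul, h1, hr, hγ]
      refine ⟨MulAction.toPerm (γ y * (γ x)⁻¹), ⟨?_, hgx⟩, ?_⟩
      · rw [mem_filter]
        exact ⟨mem_univ _, _, hg, fun x => rfl⟩
      · intro τ' hτ' hx
        rw [mem_filter] at hτ'
        obtain ⟨g, hg', hτ''⟩ := hτ'.2
        have h1 : g = γ y * (γ x)⁻¹ := by
          have h2 : ((γ y * (γ x)⁻¹)⁻¹ * g) • x = x := by
            rw [mul_smul, ← hτ'' x, hx, inv_smul_eq_iff, hgx]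
          have := hfree _ _ h2
          rw [inv_mul_eq_one] at this
          exact this.symm
        ext z
        rw [hτ'' z, h1]
        rfl
    · intro τ hτ e he
      rw [mem_filter] at hτ
      obtain ⟨g, -, hτ⟩ := hτ.2
      have : e.image τ = e.image (fun x => g • x) := by
        apply Finset.image_congr
        intro x _
        exact hτ x
      rw [this]
      exact hG g e he
  · obtain ⟨g, hg⟩ : ∃ g : Γ, g ∉ A := by
      by_contra hcon
      push Not at hcon
      have : A = ⊤ := (Subgroup.eq_top_iff' A).2 hcon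
      rw [this, Subgroup.index_top] at hA
      omega
    exact ⟨MulAction.toPerm g, by rw [mem_filter]; exact ⟨mem_univ _, g, hg, fun x => rfl⟩⟩
  · intro i
    obtain ⟨x, hx⟩ := Quotient.exists_rep (φ.symm i)
    refine ⟨x, ?_⟩
    show φ (π x) = i
    have : π x = φ.symm i := hx
    rw [this, Equiv.apply_symm_apply]

end Pool.Agent.V11328.TD
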