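import Pool.Agent.V11328.TD.Pair
import Pool.Agent.H449R2.Fl.Copies

/-!
# 3-graphs with a sharply transitive family of involutions exchanging the sides
-/

set_option autoImplicit false

open Finset

namespace Pool.Agent.V11328.TD

open Pool.Agent.H449R2.Fl

/-- `G` is a 3-graph in which every four vertices contain an edge. -/
def Covering {V : Type} [DecidableEq V] (G : Finset (Finset V)) : Prop :=
  (∀ e ∈ G, e.card = 3) ∧ ∀ S : Finset V, S.card = 4 → ∃ e ∈ G, e ⊆ S

/-- The vertices are divided into `k` blocks, each of which is divided into two sides; `T` is a set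
of involutions which preserve `G` and the blocks and exchange the two sides of every block, and any
two vertices on different sides of the same block are exchanged by exactly one of them. -/
structure SwapFamily {V : Type} [DecidableEq V] (k : ℕ) (G : Finset (Finset V))
    (T : Finset (Equiv.Perm V)) (side : V → Bool) (blk : V → Fin k) : Prop where
  invol : ∀ τ ∈ T, ∀ x, τ (τ x) = x
  flip : ∀ τ ∈ T, ∀ x, side (τ x) = !side x
  block : ∀ τ ∈ T, ∀ x, blk (τ x) = blk x
  uniq : ∀ x y, side x ≠ side y → blk x = blk y → ∃ τ, (τ ∈ T ∧ τ x = y) ∧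
    ∀ τ', τ' ∈ T → τ' x = y → τ' = τ
  inv : ∀ τ ∈ T, ∀ e ∈ G, e.image τ ∈ G

variable {V : Type} [Fintype V] [DecidableEq V] {k : ℕ} {G : Finset (Finset V)}
  {T : Finset (Equiv.Perm V)} {side : V → Bool} {blk : V → Fin k}

/-- The class of the vertices on one side of a block. -/
def cl (side : V → Bool) (blk : V → Fin k) (i : Fin k) (b : Bool) : Finset V :=
  univ.filter fun x => blk x = i ∧ side x = b

omit [DecidableEq V] in
theorem mem_cl {i : Fin k} {b : Bool} {x : V} :
    x ∈ cl side blk i b ↔ blk x = i ∧ side x = b := by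
  unfold cl
  simp

theorem cl_disj {i j : Fin k} {b c : Bool} (h : i ≠ j ∨ b ≠ c) :
    Disjoint (cl side blk i b) (cl side blk j c) := by
  rw [Finset.disjoint_left]
  intro x hx hy
  rw [mem_cl] at hx hy
  rcases h with h | h
  · exact h (hx.1.symm.trans hy.1)
  · exact h (hx.2.symm.trans hy.2)

/-- Sums over the family are sums over the other side. -/
theorem sum_swap (hT : SwapFamily k G T side blk) (F : V → ℝ) (x : V) :
    ∑ τ ∈ T, F (τ x) = ∑ z ∈ cl side blk (blk x) (!side x), F z := by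
  refine Finset.sum_bij (fun τ _ => τ x) ?_ ?_ ?_ ?_
  · intro τ hτ
    rw [mem_cl]
    exact ⟨hT.block τ hτ x, hT.flip τ hτ x⟩
  · intro τ hτ τ' hτ' h
    obtain ⟨σ, -, hσ⟩ := hT.uniq x (τ x) (by rw [hT.flip τ hτ x]; cases side x <;> simp)
      (hT.block τ hτ x).symm
    rw [hσ τ hτ rfl, hσ τ' hτ' h.symm]
  · intro z hz
    rw [mem_cl] at hz
    obtain ⟨σ, hσ, -⟩ := hT.uniq x z (by rw [hz.2]; cases side x <;> simp) hz.1.symm
    exact ⟨σ, hσ.1, hσ.2⟩
  · intro τ _
    rfl

theorem card_opp (hT : SwapFamily k G T side blk) (x : V) :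
    (cl side blk (blk x) (!side x)).card = T.card := by
  have := sum_swap hT (fun _ => 1) x
  simp only [sum_const, nsmul_eq_mul, mul_one] at this
  exact_mod_cast this.symm

theorem card_cl (hT : SwapFamily k G T side blk) (hne : T.Nonempty)
    (hs : Function.Surjective blk) (i : Fin k) (b : Bool) : (cl side blk i b).card = T.card := by
  obtain ⟨x, hx⟩ := hs i
  obtain ⟨τ, hτ⟩ := hne
  by_cases h : b = side x
  · have h1 := card_opp hT (τ x)
    rw [hT.block τ hτ x, hT.flip τ hτ x, hx, Bool.not_not, ← h] at h1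
    exact h1
  · have h1 := card_opp hT x
    rw [hx] at h1
    have : (!side x) = b := by
      revert h
      cases b <;> cases side x <;> simp
    rwa [this] at h1

/-- The 3-graph of the non-edges. -/
def HH (G : Finset (Finset V)) : Finset (Finset V) := (univ : Finset V).powersetCard 3 \ G

theorem HH_card : ∀ s ∈ HH G, s.card = 3 := by
  intro s hs
  unfold HH at hs
  rw [mem_sdiff, mem_powersetCard] at hs
  exact hs.1.2

theorem HH_noQ (hG : Covering G) : NoQ (ind (HH G)) := by
  refine K4free_sg HH_card fun S hS => ?_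
  obtain ⟨s, hs, hsS⟩ := hG.2 S hS
  refine ⟨s, hsS, hG.1 s hs, ?_⟩
  unfold HH
  rw [mem_sdiff]
  exact fun h => h.2 hs

theorem card_add (hG : Covering G) : (HH G).card + G.card = (Fintype.card V).choose 3 := by
  unfold HH
  rw [Finset.card_sdiff_add_card_eq_card, card_powersetCard, card_univ]
  intro s hs
  rw [mem_powersetCard]
  exact ⟨subset_univ _, hG.1 s hs⟩

/-- The involutions preserve the non-edges. -/
theorem e_inv (hT : SwapFamily k G T side blk) {τ : Equiv.Perm V} (hτ : τ ∈ T) (a b c : V) :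
    ind (HH G) (τ a) (τ b) (τ c) = ind (HH G) a b c := by
  have himg : ∀ a b c : V, ({a, b, c} : Finset V).image τ = {τ a, τ b, τ c} := by
    intro a b c
    rw [image_insert, image_insert, image_singleton]
  have hmem : ∀ a b c : V, ({a, b, c} : Finset V) ∈ G → ({τ a, τ b, τ c} : Finset V) ∈ G := by
    intro a b c h
    rw [← himg]
    exact hT.inv τ hτ _ h
  have hiff : ({τ a, τ b, τ c} : Finset V) ∈ HH G ↔ ({a, b, c} : Finset V) ∈ HH G := by
    unfold HH
    rw [mem_sdiff, mem_sdiff, mem_powersetCard, mem_powersetCard]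
    have h1 : ({τ a, τ b, τ c} : Finset V).card = ({a, b, c} : Finset V).card := by
      rw [← himg, card_image_of_injective _ τ.injective]
    rw [h1]
    constructor
    · rintro ⟨⟨-, h2⟩, h3⟩
      exact ⟨⟨subset_univ _, h2⟩, fun h => h3 (hmem a b c h)⟩
    · rintro ⟨⟨-, h2⟩, h3⟩
      refine ⟨⟨subset_univ _, h2⟩, fun h => h3 ?_⟩
      have h4 := hmem _ _ _ h
      rwa [hT.invol τ hτ, hT.invol τ hτ, hT.invol τ hτ] at h4
  unfold ind
  simp only [hiff]

/-- The four triples in two exchanged pairs. -/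
theorem local_le (hG : Covering G) (hT : SwapFamily k G T side blk) {τ : Equiv.Perm V}
    (hτ : τ ∈ T) (x y : V) :
    ind (HH G) x y (τ x) + ind (HH G) x y (τ y) ≤ 1 := by
  have he : Pat (ind (HH G)) := ind_pat HH_card
  have hK := HH_noQ hG x y (τ x) (τ y)
  have i1 := e_inv hT hτ x y (τ x)
  have i2 := e_inv hT hτ x y (τ y)
  rw [hT.invol τ hτ] at i1 i2
  have l1 := he.le1 x y (τ x)
  have l2 := he.le1 x y (τ y)
  have j1 : ind (HH G) x (τ x) (τ y) = ind (HH G) (τ x) (τ y) x := by
    rw [he.s12 x (τ x) (τ y), he.s23 (τ x) x (τ y)]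
  have j2 : ind (HH G) y (τ x) (τ y) = ind (HH G) (τ x) (τ y) y := by
    rw [he.s12 y (τ x) (τ y), he.s23 (τ x) y (τ y)]
  simp only [sg, Nat.add_eq, Nat.mul_eq, j1, j2, i1, i2] at hK
  omega

theorem codeg_le (hG : Covering G) (hT : SwapFamily k G T side blk) (x y : V) :
    ∑ z ∈ cl side blk (blk x) (!side x), (ind (HH G) x y z : ℝ) +
      ∑ z ∈ cl side blk (blk y) (!side y), (ind (HH G) x y z : ℝ) ≤ T.card := by
  rw [← sum_swap hT (fun z => (ind (HH G) x y z : ℝ)) x,
    ← sum_swap hT (fun z => (ind (HH G) x y z : ℝ)) y, ← sum_add_distrib]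
  calc ∑ τ ∈ T, ((ind (HH G) x y (τ x) : ℝ) + ind (HH G) x y (τ y)) ≤ ∑ τ ∈ T, (1 : ℝ) :=
        sum_le_sum fun τ hτ => by exact_mod_cast local_le hG hT hτ x y
    _ = _ := by simp

/-- Two vertices on one side and the third on the other side of the same block. -/
theorem inner_le (hG : Covering G) (hT : SwapFamily k G T side blk) (i : Fin k) (b : Bool)
    {m : ℝ} (hc : ((cl side blk i b).card : ℝ) = m) (hTm : (T.card : ℝ) = m) :
    S (ind (HH G)) (cl side blk i b) (cl side blk i b) (cl side blk i (!b)) ≤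
      m * (m - 1) * m / 2 := by
  have he : Pat (ind (HH G)) := ind_pat HH_card
  set P := cl side blk i b with hP
  have h1 : ∀ x ∈ P, ∑ y ∈ P, ∑ z ∈ cl side blk i (!b), (ind (HH G) x y z : ℝ) ≤
      (m - 1) * (m / 2) := by
    intro x hx
    rw [← Finset.add_sum_erase P _ hx]
    have h0 : ∑ z ∈ cl side blk i (!b), (ind (HH G) x x z : ℝ) = 0 := by simp [he.dg]
    rw [h0, zero_add]
    have hcard : ((P.erase x).card : ℝ) = m - 1 := by
      rw [card_erase_of_mem hx, Nat.cast_sub (Finset.card_pos.2 ⟨x, hx⟩), hc]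
      simp
    calc ∑ y ∈ P.erase x, ∑ z ∈ cl side blk i (!b), (ind (HH G) x y z : ℝ)
        ≤ ∑ y ∈ P.erase x, m / 2 := by
          refine sum_le_sum fun y hy => ?_
          have hy' := Finset.mem_of_mem_erase hy
          rw [hP, mem_cl] at hx hy'
          have h2 := codeg_le hG hT x y
          rw [hx.1, hx.2, hy'.1, hy'.2, hTm] at h2
          linarith
      _ = _ := by rw [sum_const, nsmul_eq_mul, hcard]
  unfold S
  calc _ ≤ ∑ x ∈ P, (m - 1) * (m / 2) := sum_le_sum h1
    _ = _ := by rw [sum_const, nsmul_eq_mul, hc]; ring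

/-- Vertices of two blocks. -/
theorem outer_le (hG : Covering G) (hT : SwapFamily k G T side blk) (i j : Fin k) (b c : Bool)
    {m : ℝ} (h1 : ((cl side blk i b).card : ℝ) = m) (h2 : ((cl side blk j c).card : ℝ) = m)
    (hTm : (T.card : ℝ) = m) :
    S (ind (HH G)) (cl side blk i b) (cl side blk j c) (cl side blk i (!b)) +
      S (ind (HH G)) (cl side blk i b) (cl side blk j c) (cl side blk j (!c)) ≤ m ^ 3 := by
  unfold S
  rw [← sum_add_distrib]
  calc _ ≤ ∑ x ∈ cl side blk i b, ∑ y ∈ cl side blk j c, m := by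
        refine sum_le_sum fun x hx => ?_
        rw [← sum_add_distrib]
        refine sum_le_sum fun y hy => ?_
        rw [mem_cl] at hx hy
        have h3 := codeg_le hG hT x y
        rwa [hx.1, hx.2, hy.1, hy.2, hTm] at h3
    _ = _ := by rw [sum_const, sum_const, nsmul_eq_mul, nsmul_eq_mul, h1, h2]; ring

theorem choose_real (n : ℕ) (hn : 2 ≤ n) : (n.choose 3 : ℝ) = n * (n - 1) * (n - 2) / 6 := by
  obtain ⟨p, rfl⟩ : ∃ p, n = p + 2 := ⟨n - 2, by omega⟩
  have h1 : (p + 2).choose 3 * 6 = (p + 2) * (p + 1) * p := by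
    have := Nat.choose_mul_factorial_mul_factorial (n := p + 2) (k := 3)
    have h2 : (p + 2).descFactorial 3 = Nat.factorial 3 * (p + 2).choose 3 :=
      Nat.descFactorial_eq_factorial_mul_choose _ _
    have h3 : (p + 2).descFactorial 3 = (p + 2) * (p + 1) * p := by
      simp [Nat.descFactorial]
      ring
    have h4 : Nat.factorial 3 = 6 := rfl
    rw [h4] at h2
    rw [← h3, h2]
    ring
  have h2 : ((p + 2).choose 3 : ℝ) * 6 = (p + 2) * (p + 1) * p := by exact_mod_cast h1
  push_cast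
  linarith

theorem sum_H : S (ind (HH G)) univ univ univ = 6 * ((HH G).card : ℝ) := by
  unfold S
  exact_mod_cast sum_ind (H := HH G) HH_card

/-- **One block.** -/
theorem one_block {blk : V → Fin 1} (hG : Covering G) (hT : SwapFamily 1 G T side blk)
    (hne : T.Nonempty) (hs : Function.Surjective blk) :
    Fintype.card V = 2 * T.card ∧
    (T.card : ℝ) * (T.card - 1) * (11 * T.card - 6) / 18 ≤ G.card := by
  have he : Pat (ind (HH G)) := ind_pat HH_card
  set m := T.card with hm
  have hm0 : 0 < m := hne.card_pos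
  have hm1 : (1 : ℝ) ≤ m := by exact_mod_cast hm0
  set X := cl side blk 0 false with hX
  set Y := cl side blk 0 true with hY
  have cX : X.card = m := card_cl hT hne hs 0 false
  have cY : Y.card = m := card_cl hT hne hs 0 true
  have hXY : Disjoint X Y := cl_disj (Or.inr (by simp))
  have hU : (univ : Finset V) = X ∪ Y := by
    ext x
    rw [mem_union, hX, hY, mem_cl, mem_cl]
    have : blk x = 0 := Subsingleton.elim _ _
    cases side x <;> simp [this]
  have hV : Fintype.card V = 2 * m := by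
    rw [← card_univ, hU, card_union_of_disjoint hXY, cX, cY]
    ring
  refine ⟨hV, ?_⟩
  have cX' : (X.card : ℝ) = m := by exact_mod_cast cX
  have cY' : (Y.card : ℝ) = m := by exact_mod_cast cY
  have a1 : S (ind (HH G)) X Y X = S (ind (HH G)) X X Y := S_rot he X Y X
  have a2 : S (ind (HH G)) Y X X = S (ind (HH G)) X X Y := by rw [S_swap he Y X X, a1]
  have a3 : S (ind (HH G)) Y X Y = S (ind (HH G)) Y Y X := S_rot he Y X Y
  have a4 : S (ind (HH G)) X Y Y = S (ind (HH G)) Y Y X := by rw [S_swap he X Y Y, a3]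
  have hS : S (ind (HH G)) (X ∪ Y) (X ∪ Y) (X ∪ Y) =
      (S (ind (HH G)) X X X + S (ind (HH G)) Y Y Y) +
        3 * (S (ind (HH G)) X X Y + S (ind (HH G)) Y Y X) := by
    rw [S_union1 hXY, S_union2 hXY, S_union2 hXY, S_union3 hXY, S_union3 hXY, S_union3 hXY,
      S_union3 hXY, a1, a2, a3, a4]
    ring
  have h6 := sum_H (G := G)
  rw [hU, hS] at h6
  have b1 := caen he (HH_noQ hG) X
  have b2 := caen he (HH_noQ hG) Y
  have b3 := inner_le hG hT 0 false cX' rfl
  have b4 := inner_le hG hT 0 true cY' rfl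
  rw [cX'] at b1
  rw [cY'] at b2
  simp only [Bool.not_false, Bool.not_true] at b3 b4
  rw [← hX, ← hY] at b3 b4
  have hadd := card_add hG
  rw [hV] at hadd
  have hadd' : ((HH G).card : ℝ) + G.card = ((2 * m).choose 3 : ℕ) := by exact_mod_cast hadd
  rw [choose_real _ (by omega)] at hadd'
  push_cast at hadd'
  nlinarith [h6, b1, b2, b3, b4, hadd']

/-- **Two blocks.** -/
theorem two_blocks {blk : V → Fin 2} (hG : Covering G) (hT : SwapFamily 2 G T side blk)
    (hne : T.Nonempty) (hs : Function.Surjective blk) :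
    Fintype.card V = 4 * T.card ∧
    (143 * (T.card : ℝ) ^ 3 - 210 * (T.card : ℝ) ^ 2 + 40 * T.card) / 30 ≤ G.card := by
  have he : Pat (ind (HH G)) := ind_pat HH_card
  have hK := HH_noQ hG
  set m := T.card with hm
  have hm0 : 0 < m := hne.card_pos
  have hm1 : (1 : ℝ) ≤ m := by exact_mod_cast hm0
  set e := ind (HH G) with hedef
  set A0 := cl side blk 0 false with hA0
  set A1 := cl side blk 0 true with hA1
  set B0 := cl side blk 1 false with hB0
  set B1 := cl side blk 1 true with hB1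
  have cA0 : A0.card = m := card_cl hT hne hs 0 false
  have cA1 : A1.card = m := card_cl hT hne hs 0 true
  have cB0 : B0.card = m := card_cl hT hne hs 1 false
  have cB1 : B1.card = m := card_cl hT hne hs 1 true
  have dA : Disjoint A0 A1 := cl_disj (Or.inr (by simp))
  have dB : Disjoint B0 B1 := cl_disj (Or.inr (by simp))
  have d00 : Disjoint A0 B0 := cl_disj (Or.inl (by simp))
  have d01 : Disjoint A0 B1 := cl_disj (Or.inl (by simp))
  have d10 : Disjoint A1 B0 := cl_disj (Or.inl (by simp))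
  have d11 : Disjoint A1 B1 := cl_disj (Or.inl (by simp))
  have dAB : Disjoint (A0 ∪ A1) (B0 ∪ B1) := by
    rw [disjoint_union_left, disjoint_union_right, disjoint_union_right]
    exact ⟨⟨d00, d01⟩, d10, d11⟩
  have hU : (univ : Finset V) = (A0 ∪ A1) ∪ (B0 ∪ B1) := by
    ext x
    rw [mem_union, mem_union, mem_union, hA0, hA1, hB0, hB1, mem_cl, mem_cl, mem_cl, mem_cl]
    have : blk x = 0 ∨ blk x = 1 := by
      have := (blk x).2
      rcases h : (blk x) with ⟨v, hv⟩
      interval_cases v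
      · left; rfl
      · right; rfl
    rcases this with h | h <;> cases side x <;> simp [h]
  have hV : Fintype.card V = 4 * m := by
    rw [← card_univ, hU, card_union_of_disjoint dAB, card_union_of_disjoint dA,
      card_union_of_disjoint dB, cA0, cA1, cB0, cB1]
    ring
  refine ⟨hV, ?_⟩
  have cA0' : (A0.card : ℝ) = m := by exact_mod_cast cA0
  have cA1' : (A1.card : ℝ) = m := by exact_mod_cast cA1
  have cB0' : (B0.card : ℝ) = m := by exact_mod_cast cB0
  have cB1' : (B1.card : ℝ) = m := by exact_mod_cast cB1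
  -- symmetry
  have r1 : ∀ P Q : Finset V, S e P Q P = S e P P Q := fun P Q => S_rot he P Q P
  have r2 : ∀ P Q : Finset V, S e Q P P = S e P P Q := fun P Q => by
    rw [S_swap he Q P P, r1]
  have hUU : ∀ P Q R : Finset V, Disjoint P Q → S e (P ∪ Q) (P ∪ Q) R =
      S e P P R + S e Q Q R + 2 * S e P Q R := by
    intro P Q R h
    rw [S_union1 h, S_union2 h, S_union2 h, S_swap he Q P R]
    ring
  have h3 : ∀ P Q : Finset V, Disjoint P Q → S e (P ∪ Q) (P ∪ Q) (P ∪ Q) =
      S e P P P + S e Q Q Q + 3 * (S e P P Q + S e Q Q P) := by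
    intro P Q h
    rw [hUU P Q _ h, S_union3 h, S_union3 h, S_union3 h, r1 P Q, r2 Q P]
    ring
  have hS : S e univ univ univ =
      (S e A0 A0 A0 + S e A1 A1 A1 + 3 * (S e A0 A0 A1 + S e A1 A1 A0)) +
      (S e B0 B0 B0 + S e B1 B1 B1 + 3 * (S e B0 B0 B1 + S e B1 B1 B0)) +
      3 * ((S e A0 A0 B0 + S e A0 A0 B1 + S e A1 A1 B0 + S e A1 A1 B1) +
        2 * (S e A0 A1 B0 + S e A0 A1 B1)) +
      3 * ((S e B0 B0 A0 + S e B0 B0 A1 + S e B1 B1 A0 + S e B1 B1 A1) +
        2 * (S e B0 B1 A0 + S e B0 B1 A1)) := by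
    rw [hU, h3 _ _ dAB, h3 _ _ dA, h3 _ _ dB, hUU _ _ _ dA, hUU _ _ _ dB, S_union3 dB,
      S_union3 dB, S_union3 dB, S_union3 dA, S_union3 dA, S_union3 dA]
    ring
  have h6 := sum_H (G := G)
  rw [← hedef, hS] at h6
  have p00 := pair he hK d00 hm0 cA0 cB0
  have p01 := pair he hK d01 hm0 cA0 cB1
  have p10 := pair he hK d10 hm0 cA1 cB0
  have p11 := pair he hK d11 hm0 cA1 cB1
  have i1 := inner_le hG hT 0 false cA0' rfl
  have i2 := inner_le hG hT 0 true cA1' rfl
  have i3 := inner_le hG hT 1 false cB0' rfl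
  have i4 := inner_le hG hT 1 true cB1' rfl
  have o1 := outer_le hG hT 0 1 false false cA0' cB0' rfl
  have o2 := outer_le hG hT 0 1 false true cA0' cB1' rfl
  have o3 := outer_le hG hT 0 1 true false cA1' cB0' rfl
  have o4 := outer_le hG hT 0 1 true true cA1' cB1' rfl
  simp only [Bool.not_false, Bool.not_true] at i1 i2 i3 i4 o1 o2 o3 o4
  have t1 : S e A0 B0 A1 = S e A0 A1 B0 := S_rot he _ _ _
  have t2 : S e A0 B0 B1 = S e B0 B1 A0 := by rw [S_swap he A0 B0 B1, S_rot he B0 A0 B1]
  have t3 : S e A0 B1 A1 = S e A0 A1 B1 := S_rot he _ _ _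
  have t4 : S e A0 B1 B0 = S e B0 B1 A0 := by
    rw [S_rot he A0 B1 B0, S_swap he A0 B0 B1, S_rot he B0 A0 B1]
  have t5 : S e A1 B0 A0 = S e A0 A1 B0 := by rw [S_rot he A1 B0 A0, S_swap he A1 A0 B0]
  have t6 : S e A1 B0 B1 = S e B0 B1 A1 := by rw [S_swap he A1 B0 B1, S_rot he B0 A1 B1]
  have t7 : S e A1 B1 A0 = S e A0 A1 B1 := by rw [S_rot he A1 B1 A0, S_swap he A1 A0 B1]
  have t8 : S e A1 B1 B0 = S e B0 B1 A1 := by
    rw [S_rot he A1 B1 B0, S_swap he A1 B0 B1, S_rot he B0 A1 B1]
  rw [t1, t2] at o1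
  rw [t3, t4] at o2
  rw [t5, t6] at o3
  rw [t7, t8] at o4
  have hadd := card_add hG
  rw [hV] at hadd
  have hadd' : ((HH G).card : ℝ) + G.card = ((4 * m).choose 3 : ℕ) := by exact_mod_cast hadd
  rw [choose_real _ (by omega)] at hadd'
  push_cast at hadd'
  have hH : ((HH G).card : ℝ) ≤ 59 / 10 * (m : ℝ) ^ 3 - (m : ℝ) ^ 2 := by
    have e1 : (m : ℝ) * (m - 1) * m / 2 = (m : ℝ) ^ 3 / 2 - (m : ℝ) ^ 2 / 2 := by ring
    rw [e1] at i1 i2 i3 i4
    linarith
  have e2 : (4 * (m : ℝ)) * (4 * m - 1) * (4 * m - 2) / 6 =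
      32 / 3 * (m : ℝ) ^ 3 - 8 * (m : ℝ) ^ 2 + 4 / 3 * m := by ring
  rw [e2] at hadd'
  linarith

end Pool.Agent.V11328.TD
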