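import Pool.Agent.V11328.TD.Flag

/-!
# Two classes of the same size
-/

set_option autoImplicit false

open Finset

namespace Pool.Agent.V11328.TD

open Pool.Agent.H449R2.Fl

variable {V : Type} [DecidableEq V] {e : V → V → V → ℕ}

theorem S_union1 {A B : Finset V} (h : Disjoint A B) (Q R : Finset V) :
    S e (A ∪ B) Q R = S e A Q R + S e B Q R := by
  unfold S
  rw [sum_union h]

theorem S_union3 {A B : Finset V} (h : Disjoint A B) (P Q : Finset V) :
    S e P Q (A ∪ B) = S e P Q A + S e P Q B := by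
  unfold S
  simp only [sum_union h, sum_add_distrib]

theorem S_union2 {A B : Finset V} (h : Disjoint A B) (P R : Finset V) :
    S e P (A ∪ B) R = S e P A R + S e P B R := by
  unfold S
  simp only [sum_union h, sum_add_distrib]

theorem S2_union {A B : Finset V} (h : Disjoint A B) (R : Finset V) :
    S2 e (A ∪ B) (A ∪ B) R = (S2 e A A R + S2 e B B R) + (S2 e A B R + S2 e B A R) := by
  unfold S2
  rw [sum_union h]
  simp only [sum_union h, sum_add_distrib]
  ring

/-- The numerical estimate. -/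
theorem numeric {q P M : ℝ} (hq : 0 < q) (hM0 : 0 ≤ M) (hM : M ^ 2 ≤ 2 * q ^ 2)
    (h : 9 * (4 * q * (P + 3 * M) + ((P + M) ^ 2 + 4 * M ^ 2)) ≤ 256 * q ^ 2) :
    P + 6 * M ≤ 87 / 10 * q := by
  by_contra hcon
  push Not at hcon
  have h1 : M ≤ 141422 / 100000 * q := by
    by_contra h2
    push Not at h2
    nlinarith [mul_self_pos.2 hq.ne']
  have h2 : 0 ≤ 87 / 10 * q - 6 * M := by linarith
  have h3 : 87 / 10 * q - 6 * M ≤ P := by linarith
  have h4 : 4 * q * ((87 / 10 * q - 6 * M) + 3 * M) ≤ 4 * q * (P + 3 * M) :=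
    mul_le_mul_of_nonneg_left (by linarith) (by linarith)
  have h5 : ((87 / 10 * q - 6 * M) + M) ^ 2 ≤ (P + M) ^ 2 :=
    pow_le_pow_left₀ (by linarith) (by linarith) 2
  have h6 : 0 ≤ (141422 / 100000 * q - M) * (5798762 / 100000 * q - 29 * M) :=
    mul_nonneg (by linarith) (by linarith)
  nlinarith [mul_self_pos.2 hq.ne']

/-- The edges in two classes of size `m`, those inside the classes with weight one half. -/
theorem pair (he : Pat e) (hK : NoQ e) {A B : Finset V} (hAB : Disjoint A B) {m : ℕ}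
    (hm : 0 < m) (hA : A.card = m) (hB : B.card = m) :
    (S e A A B + S e B B A) / 2 + (S e A A A + S e B B B) / 12 ≤ 725 / 1000 * (m : ℝ) ^ 3 := by
  have hm' : (0 : ℝ) < m := by exact_mod_cast hm
  have hA' : (A.card : ℝ) = m := by exact_mod_cast hA
  have hB' : (B.card : ℝ) = m := by exact_mod_cast hB
  have hC : ((A ∪ B).card : ℝ) = 2 * m := by
    rw [card_union_of_disjoint hAB, hA, hB]
    push_cast
    ring
  have hf := flag he hK (A ∪ B) (by
    rw [← Finset.card_pos, card_union_of_disjoint hAB]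
    omega)
  rw [hC] at hf
  have hc := cross he hK A B hA' hB'
  -- sums over the union
  have a1 : S e A B A = S e A A B := S_rot he A B A
  have a2 : S e B A A = S e A A B := by rw [S_swap he B A A, a1]
  have a3 : S e B A B = S e B B A := S_rot he B A B
  have a4 : S e A B B = S e B B A := by rw [S_swap he A B B, a3]
  have hS : S e (A ∪ B) (A ∪ B) (A ∪ B) =
      (S e A A A + S e B B B) + 3 * (S e A A B + S e B B A) := by
    rw [S_union1 hAB, S_union2 hAB, S_union2 hAB, S_union3 hAB, S_union3 hAB, S_union3 hAB,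
      S_union3 hAB, a1, a2, a3, a4]
    ring
  have hS2 := S2_union (e := e) hAB (A ∪ B)
  have i1 : S e A A (A ∪ B) = S e A A A + S e A A B := S_union3 hAB _ _
  have i2 : S e B B (A ∪ B) = S e B B A + S e B B B := S_union3 hAB _ _
  have i3 : S e A B (A ∪ B) = S e A A B + S e B B A := by rw [S_union3 hAB, a1, a4]
  have i4 : S e B A (A ∪ B) = S e A A B + S e B B A := by rw [S_union3 hAB, a2, a3]
  have c1 := S_sq_le (e := e) A A (A ∪ B)
  have c2 := S_sq_le (e := e) B B (A ∪ B)
  have c3 := S_sq_le (e := e) A B (A ∪ B)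
  have c4 := S_sq_le (e := e) B A (A ∪ B)
  rw [i1, hA'] at c1
  rw [i2, hB'] at c2
  rw [i3, hA', hB'] at c3
  rw [i4, hA', hB'] at c4
  have p1 := S_nonneg (e := e) A A B
  have p2 := S_nonneg (e := e) B B A
  set P := S e A A A + S e B B B with hP
  set M := S e A A B + S e B B A with hMd
  have hlow : (P + M) ^ 2 + 4 * M ^ 2 ≤ 2 * (m : ℝ) ^ 2 * S2 e (A ∪ B) (A ∪ B) (A ∪ B) := by
    rw [hS2]
    nlinarith [sq_nonneg (S e A A A + S e A A B - (S e B B A + S e B B B))]
  rw [hS] at hf
  have hq : (0 : ℝ) < (m : ℝ) ^ 3 := by positivity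
  have hfin := numeric (q := (m : ℝ) ^ 3) (P := P) (M := M) hq (by linarith) (by
    calc M ^ 2 ≤ 2 * (m : ℝ) ^ 6 := hc
      _ = 2 * ((m : ℝ) ^ 3) ^ 2 := by ring) (by
    have h1 := mul_le_mul_of_nonneg_left hf (by positivity : (0 : ℝ) ≤ 2 * (m : ℝ) ^ 2)
    nlinarith [h1, hlow])
  linarith

end Pool.Agent.V11328.TD
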