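import Pool.Agent.H449R2.Fl.Defs

/-!
# Ordered sums over edges of a 3-graph without complete quadruples
-/

set_option autoImplicit false

open Finset

namespace Pool.Agent.V11328.TD

open Pool.Agent.H449R2.Fl

variable {V : Type}

/-- No four vertices span all four triples. -/
def NoQ (e : V → V → V → ℕ) : Prop := ∀ a b c d, sg e a b c d ≠ 15

/-- The number of ordered edges in `P × Q × R`. -/
noncomputable def S (e : V → V → V → ℕ) (P Q R : Finset V) : ℝ :=
  ∑ x ∈ P, ∑ y ∈ Q, ∑ z ∈ R, (e x y z : ℝ)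

/-- The sum of the squares of the codegrees. -/
noncomputable def S2 (e : V → V → V → ℕ) (P Q R : Finset V) : ℝ :=
  ∑ x ∈ P, ∑ y ∈ Q, (∑ z ∈ R, (e x y z : ℝ)) ^ 2

variable {e : V → V → V → ℕ}

theorem S_nonneg (P Q R : Finset V) : 0 ≤ S e P Q R :=
  sum_nonneg fun _ _ => sum_nonneg fun _ _ => sum_nonneg fun _ _ => Nat.cast_nonneg _

theorem S2_nonneg (P Q R : Finset V) : 0 ≤ S2 e P Q R :=
  sum_nonneg fun _ _ => sum_nonneg fun _ _ => sq_nonneg _

theorem S_swap (he : Pat e) (P Q R : Finset V) : S e P Q R = S e Q P R := by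
  unfold S
  rw [sum_comm]
  exact sum_congr rfl fun y _ => sum_congr rfl fun x _ => sum_congr rfl fun z _ => by
    rw [he.s12 x y z]

theorem S_rot (he : Pat e) (P Q R : Finset V) : S e P Q R = S e P R Q := by
  unfold S
  refine sum_congr rfl fun x _ => ?_
  rw [sum_comm]
  exact sum_congr rfl fun z _ => sum_congr rfl fun y _ => by rw [he.s23 x y z]

theorem key (he : Pat e) (hK : NoQ e) (x y z w : V) :
    (e x y z : ℝ) * e x y w + (e z w x : ℝ) * e z w y ≤ 1 := by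
  have l1 := he.le1 x y z
  have l2 := he.le1 x y w
  have l3 := he.le1 z w x
  have l4 := he.le1 z w y
  have h := hK x y z w
  have e3 : e x z w = e z w x := by rw [he.s12 x z w, he.s23 z x w]
  have e4 : e y z w = e z w y := by rw [he.s12 y z w, he.s23 z y w]
  simp only [sg, Nat.add_eq, Nat.mul_eq, e3, e4] at h
  have h5 : e x y z * e x y w + e z w x * e z w y ≤ 1 := by
    interval_cases e x y z <;> interval_cases e x y w <;> interval_cases e z w x <;>
      interval_cases e z w y <;> simp_all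
  exact_mod_cast h5

/-- Cauchy's inequality. -/
theorem S_sq_le (P Q R : Finset V) :
    S e P Q R ^ 2 ≤ (P.card : ℝ) * Q.card * S2 e P Q R := by
  unfold S S2
  have h1 := sq_sum_le_card_mul_sum_sq (s := P)
    (f := fun x => ∑ y ∈ Q, ∑ z ∈ R, (e x y z : ℝ))
  have h2 : ∑ x ∈ P, (∑ y ∈ Q, ∑ z ∈ R, (e x y z : ℝ)) ^ 2 ≤
      ∑ x ∈ P, (Q.card : ℝ) * ∑ y ∈ Q, (∑ z ∈ R, (e x y z : ℝ)) ^ 2 := by
    apply sum_le_sum
    intro x _
    exact sq_sum_le_card_mul_sum_sq (s := Q) (f := fun y => ∑ z ∈ R, (e x y z : ℝ))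
  rw [← mul_sum] at h2
  calc _ ≤ _ := h1
    _ ≤ (P.card : ℝ) * ((Q.card : ℝ) * ∑ x ∈ P, ∑ y ∈ Q, (∑ z ∈ R, (e x y z : ℝ)) ^ 2) :=
        mul_le_mul_of_nonneg_left h2 (Nat.cast_nonneg _)
    _ = _ := by ring

theorem S2_add_le (he : Pat e) (hK : NoQ e) (A B : Finset V) :
    S2 e A A B + S2 e B B A ≤ (A.card : ℝ) ^ 2 * (B.card : ℝ) ^ 2 := by
  have e1 : S2 e A A B = ∑ x ∈ A, ∑ y ∈ A, ∑ z ∈ B, ∑ w ∈ B, (e x y z : ℝ) * e x y w := by
    unfold S2
    refine sum_congr rfl fun x _ => sum_congr rfl fun y _ => ?_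
    rw [sq, sum_mul_sum]
  have e2 : S2 e B B A = ∑ x ∈ A, ∑ y ∈ A, ∑ z ∈ B, ∑ w ∈ B, (e z w x : ℝ) * e z w y := by
    unfold S2
    have : ∀ z w : V, (∑ x ∈ A, (e z w x : ℝ)) ^ 2 =
        ∑ x ∈ A, ∑ y ∈ A, (e z w x : ℝ) * e z w y := by
      intro z w; rw [sq, sum_mul_sum]
    simp only [this]
    calc ∑ z ∈ B, ∑ w ∈ B, ∑ x ∈ A, ∑ y ∈ A, (e z w x : ℝ) * e z w y
        = ∑ z ∈ B, ∑ x ∈ A, ∑ w ∈ B, ∑ y ∈ A, (e z w x : ℝ) * e z w y := by
          refine sum_congr rfl fun z _ => ?_; rw [sum_comm]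
      _ = ∑ x ∈ A, ∑ z ∈ B, ∑ w ∈ B, ∑ y ∈ A, (e z w x : ℝ) * e z w y := by rw [sum_comm]
      _ = ∑ x ∈ A, ∑ z ∈ B, ∑ y ∈ A, ∑ w ∈ B, (e z w x : ℝ) * e z w y := by
          refine sum_congr rfl fun x _ => sum_congr rfl fun z _ => ?_; rw [sum_comm]
      _ = ∑ x ∈ A, ∑ y ∈ A, ∑ z ∈ B, ∑ w ∈ B, (e z w x : ℝ) * e z w y := by
          refine sum_congr rfl fun x _ => ?_; rw [sum_comm]
  rw [e1, e2]
  simp only [← sum_add_distrib]
  calc ∑ x ∈ A, ∑ y ∈ A, ∑ z ∈ B, ∑ w ∈ B, ((e x y z : ℝ) * e x y w + (e z w x : ℝ) * e z w y)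
      ≤ ∑ x ∈ A, ∑ y ∈ A, ∑ z ∈ B, ∑ w ∈ B, (1 : ℝ) :=
        sum_le_sum fun x _ => sum_le_sum fun y _ => sum_le_sum fun z _ => sum_le_sum fun w _ =>
          key he hK x y z w
    _ = _ := by simp only [sum_const, nsmul_eq_mul, mul_one]; ring

/-- The mixed triples of two classes of size `m`. -/
theorem cross (he : Pat e) (hK : NoQ e) (A B : Finset V) {m : ℝ} (hA : (A.card : ℝ) = m)
    (hB : (B.card : ℝ) = m) :
    (S e A A B + S e B B A) ^ 2 ≤ 2 * m ^ 6 := by
  have h1 := S_sq_le (e := e) A A B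
  have h2 := S_sq_le (e := e) B B A
  have h3 := S2_add_le he hK A B
  rw [hA] at h1
  rw [hB] at h2
  rw [hA, hB] at h3
  have h4 : m * m * (S2 e A A B + S2 e B B A) ≤ m * m * (m ^ 2 * m ^ 2) :=
    mul_le_mul_of_nonneg_left h3 (mul_self_nonneg m)
  nlinarith [sq_nonneg (S e A A B - S e B B A)]

/-- de Caen's bound. -/
theorem caen [DecidableEq V] (he : Pat e) (hK : NoQ e) (A : Finset V) :
    S e A A A ≤ (A.card : ℝ) * (A.card - 1) * (2 * A.card - 3) / 3 := by
  set m : ℝ := (A.card : ℝ) with hm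
  have hdist : ∀ x y z, e x y z = 1 → x ≠ y ∧ x ≠ z ∧ y ≠ z := by
    intro x y z h
    refine ⟨?_, ?_, ?_⟩
    · rintro rfl; rw [he.dg] at h; omega
    · rintro rfl; rw [he.s23, he.dg] at h; omega
    · rintro rfl; rw [he.s12, he.s23, he.dg] at h; omega
  -- codegrees of an edge
  have h1 : ∀ x ∈ A, ∀ y ∈ A, ∀ z ∈ A, (e x y z : ℝ) *
      (∑ w ∈ A, ((e x y w : ℝ) + e x z w + e y z w)) ≤ (e x y z : ℝ) * (2 * m - 3) := by
    intro x hx y hy z hz
    rcases Nat.eq_zero_or_pos (e x y z) with h0 | h0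
    · rw [h0]; simp
    have h1 : e x y z = 1 := by have := he.le1 x y z; omega
    obtain ⟨n1, n2, n3⟩ := hdist x y z h1
    rw [h1, Nat.cast_one, one_mul, one_mul]
    have hT : ({x, y, z} : Finset V) ⊆ A := by
      intro t ht
      simp only [mem_insert, mem_singleton] at ht
      rcases ht with rfl | rfl | rfl <;> assumption
    have hc : ({x, y, z} : Finset V).card = 3 := Finset.card_eq_three.mpr ⟨x, y, z, n1, n2, n3, rfl⟩
    rw [← Finset.sum_sdiff hT]
    have h2 : ∑ w ∈ A \ {x, y, z}, ((e x y w : ℝ) + e x z w + e y z w) ≤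
        ∑ w ∈ A \ {x, y, z}, (2 : ℝ) := by
      refine sum_le_sum fun w _ => ?_
      have l2 := he.le1 x y w
      have l3 := he.le1 x z w
      have l4 := he.le1 y z w
      have h := hK x y z w
      simp only [sg, Nat.add_eq, Nat.mul_eq, h1] at h
      have : e x y w + e x z w + e y z w ≤ 2 := by omega
      exact_mod_cast this
    have h3 : ∑ w ∈ ({x, y, z} : Finset V), ((e x y w : ℝ) + e x z w + e y z w) = 3 := by
      rw [sum_insert (by simp [n1, n2]), sum_insert (by simp [n3]), sum_singleton]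
      have a1 : e x y x = 0 := by rw [he.s23, he.dg]
      have a2 : e x z x = 0 := by rw [he.s23, he.dg]
      have a3 : e y z x = 1 := by rw [he.s23 y z x, he.s12 y x z, h1]
      have a4 : e x y y = 0 := by rw [he.s12, he.s23, he.dg]
      have a5 : e x z y = 1 := by rw [he.s23, h1]
      have a6 : e y z y = 0 := by rw [he.s23, he.dg]
      have a7 : e x z z = 0 := by rw [he.s12, he.s23, he.dg]
      have a8 : e y z z = 0 := by rw [he.s12, he.s23, he.dg]
      rw [a1, a2, a3, a4, a5, a6, h1, a7, a8]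
      norm_num
    rw [sum_const, nsmul_eq_mul] at h2
    have h4 : ((A \ {x, y, z}).card : ℝ) = m - 3 := by
      have := Finset.card_sdiff_add_card_eq_card hT
      rw [hc] at this
      rw [hm, ← this]
      push_cast
      ring
    rw [h4] at h2
    linarith
  have h2 : 3 * S2 e A A A ≤ (2 * m - 3) * S e A A A := by
    have e1 : ∑ x ∈ A, ∑ y ∈ A, ∑ z ∈ A, (e x y z : ℝ) *
        (∑ w ∈ A, ((e x y w : ℝ) + e x z w + e y z w)) = 3 * S2 e A A A := by
      have b1 : ∑ x ∈ A, ∑ y ∈ A, ∑ z ∈ A, (e x y z : ℝ) * ∑ w ∈ A, (e x y w : ℝ) =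
          S2 e A A A := by
        unfold S2
        refine sum_congr rfl fun x _ => sum_congr rfl fun y _ => ?_
        rw [← sum_mul, sq]
      have b2 : ∑ x ∈ A, ∑ y ∈ A, ∑ z ∈ A, (e x y z : ℝ) * ∑ w ∈ A, (e x z w : ℝ) =
          S2 e A A A := by
        unfold S2
        refine sum_congr rfl fun x _ => ?_
        rw [sum_comm]
        refine sum_congr rfl fun z _ => ?_
        rw [← sum_mul, sq]
        congr 1
        exact sum_congr rfl fun y _ => by rw [he.s23 x y z]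
      have b3 : ∑ x ∈ A, ∑ y ∈ A, ∑ z ∈ A, (e x y z : ℝ) * ∑ w ∈ A, (e y z w : ℝ) =
          S2 e A A A := by
        unfold S2
        rw [sum_comm]
        refine sum_congr rfl fun y _ => ?_
        rw [sum_comm]
        refine sum_congr rfl fun z _ => ?_
        rw [← sum_mul, sq]
        congr 1
        exact sum_congr rfl fun x _ => by rw [he.s12 x y z, he.s23 y x z]
      simp only [sum_add_distrib, mul_add]
      rw [b1, b2, b3]
      ring
    rw [← e1]
    unfold S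
    simp only [mul_sum]
    refine sum_le_sum fun x hx => sum_le_sum fun y hy => sum_le_sum fun z hz => ?_
    have := h1 x hx y hy z hz
    simp only [mul_sum] at this
    linarith
  -- Cauchy without the diagonal
  have h3 : S e A A A ^ 2 ≤ m * (m - 1) * S2 e A A A := by
    have d1 : ∀ x ∈ A, ∑ y ∈ A, ∑ z ∈ A, (e x y z : ℝ) =
        ∑ y ∈ A.erase x, ∑ z ∈ A, (e x y z : ℝ) := by
      intro x hx
      rw [← Finset.add_sum_erase A _ hx]
      simp [he.dg]
    have d2 : ∀ x ∈ A, ∑ y ∈ A, (∑ z ∈ A, (e x y z : ℝ)) ^ 2 =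
        ∑ y ∈ A.erase x, (∑ z ∈ A, (e x y z : ℝ)) ^ 2 := by
      intro x hx
      rw [← Finset.add_sum_erase A _ hx]
      simp [he.dg]
    unfold S S2
    rw [sum_congr rfl d1, sum_congr rfl d2]
    have h1 := sq_sum_le_card_mul_sum_sq (s := A)
      (f := fun x => ∑ y ∈ A.erase x, ∑ z ∈ A, (e x y z : ℝ))
    have h2 : ∑ x ∈ A, (∑ y ∈ A.erase x, ∑ z ∈ A, (e x y z : ℝ)) ^ 2 ≤
        ∑ x ∈ A, (m - 1) * ∑ y ∈ A.erase x, (∑ z ∈ A, (e x y z : ℝ)) ^ 2 := by
      apply sum_le_sum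
      intro x hx
      have h := sq_sum_le_card_mul_sum_sq (s := A.erase x) (f := fun y => ∑ z ∈ A, (e x y z : ℝ))
      have hc : ((A.erase x).card : ℝ) = m - 1 := by
        rw [card_erase_of_mem hx, Nat.cast_sub (Finset.card_pos.2 ⟨x, hx⟩), hm]
        simp
      rwa [hc] at h
    rw [← mul_sum] at h2
    calc _ ≤ _ := h1
      _ ≤ m * ((m - 1) * ∑ x ∈ A, ∑ y ∈ A.erase x, (∑ z ∈ A, (e x y z : ℝ)) ^ 2) :=
          mul_le_mul_of_nonneg_left h2 (Nat.cast_nonneg _)
      _ = _ := by ring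
  rcases Nat.lt_or_ge A.card 1 with h0 | h0
  · have : A = ∅ := Finset.card_eq_zero.1 (by omega)
    subst this
    simp [S, hm]
  have hm1 : 1 ≤ m := by rw [hm]; exact_mod_cast h0
  have hS := S_nonneg (e := e) A A A
  rcases hS.eq_or_lt with h5 | h5
  · rcases Nat.lt_or_ge A.card 2 with h6 | h6
    · have : m = 1 := by rw [hm]; exact_mod_cast (by omega : A.card = 1)
      rw [← h5, this]; norm_num
    · have h7 : (2 : ℝ) ≤ m := by rw [hm]; exact_mod_cast h6
      rw [← h5]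
      have : 0 ≤ m * (m - 1) * (2 * m - 3) :=
        mul_nonneg (mul_nonneg (by linarith) (by linarith)) (by linarith)
      linarith
  · have h6 : 0 ≤ m * (m - 1) := mul_nonneg (by linarith) (by linarith)
    have h7 : S e A A A * (3 * S e A A A) ≤ S e A A A * (m * (m - 1) * (2 * m - 3)) := by
      nlinarith [mul_le_mul_of_nonneg_left h2 h6]
    have := le_of_mul_le_mul_left h7 h5
    linarith

end Pool.Agent.V11328.TD
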